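import Mathlib

set_option autoImplicit false
open MeasureTheory Set Filter Topology

namespace Pool.Agent.Lib.B7ec12

theorem exists_open_dense_periodic :
    ∃ O : Set ℝ, IsOpen O ∧ Dense O ∧ (∀ x, x + 1 ∈ O ↔ x ∈ O) ∧ volume (O ∩ Ico 0 1) < 1 := by
  obtain ⟨O₁, hQ, hO, hm⟩ : ∃ O₁ : Set ℝ, range ((↑) : ℚ → ℝ) ⊆ O₁ ∧ IsOpen O₁ ∧ volume O₁ < 1 := by
    have h0 : volume (range ((↑) : ℚ → ℝ)) < 1 := by
      rw [(countable_range _).measure_zero]; simp
    obtain ⟨U, h1, h2, h3⟩ := Set.exists_isOpen_lt_of_lt (range ((↑) : ℚ → ℝ)) 1 h0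
    exact ⟨U, h1, h2, h3⟩
  have h0 : (0:ℝ) ∈ O₁ := hQ ⟨0, by simp⟩
  have h1 : (1:ℝ) ∈ O₁ := hQ ⟨1, by simp⟩
  have hopen : IsOpen {x : ℝ | Int.fract x ∈ O₁} := by
    rw [isOpen_iff_mem_nhds]
    intro x hx
    by_cases hxi : x = ⌊x⌋
    · have e1 : Tendsto (Int.fract : ℝ → ℝ) (𝓝[<] x) (𝓝 1) := by
        rw [hxi]; exact (tendsto_fract_left (α := ℝ) ⌊x⌋).mono_right nhdsWithin_le_nhds
      have e2 : Tendsto (Int.fract : ℝ → ℝ) (𝓝[≥] x) (𝓝 0) := by
        rw [hxi]; exact (tendsto_fract_right (α := ℝ) ⌊x⌋).mono_right nhdsWithin_le_nhds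
      have e3 := e1 (hO.mem_nhds h1)
      have e4 := e2 (hO.mem_nhds h0)
      have : 𝓝 x = 𝓝[<] x ⊔ 𝓝[≥] x := by
        rw [← nhdsWithin_union, Iio_union_Ici, nhdsWithin_univ]
      rw [this]
      exact ⟨e3, e4⟩
    · exact (continuousAt_fract hxi) (hO.mem_nhds hx)
  refine ⟨{x : ℝ | Int.fract x ∈ O₁}, hopen, ?_, ?_, ?_⟩
  · refine Rat.denseRange_cast.mono ?_
    rintro _ ⟨q, rfl⟩
    refine hQ ⟨Int.fract q, ?_⟩
    push_cast
    rfl
  · intro x
    simp [Int.fract_add_one]
  · refine lt_of_le_of_lt (measure_mono ?_) hm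
    rintro x ⟨hx, hx2⟩
    have : Int.fract x = x := Int.fract_eq_self.2 hx2
    simpa [this] using hx

theorem exists_cantor :
    ∃ (κ : ℝ → ℝ) (S : Set ℝ) (β : ℝ), Continuous κ ∧ Monotone κ ∧ 0 < β ∧
      (∀ x, κ (x+1) = κ x + β) ∧ IsClosed S ∧ volume S = 0 ∧ (∀ x, x + 1 ∈ S ↔ x ∈ S) ∧
      (∀ x y, x ≤ y → (∀ z ∈ Icc x y, z ∉ S) → κ x = κ y) := by
  obtain ⟨O, hO, hd, hper, hm⟩ := exists_open_dense_periodic
  set χ : ℝ → ℝ := O.indicator (fun _ => (1:ℝ)) with hχ
  have hχ0 : ∀ x, 0 ≤ χ x := fun x => by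
    rw [hχ]; exact indicator_nonneg (fun _ _ => zero_le_one) x
  have hχ1 : ∀ x, χ x ≤ 1 := fun x => by
    rw [hχ]; exact indicator_le' (fun _ _ => le_rfl) (fun _ _ => zero_le_one) x
  have hχper : Function.Periodic χ 1 := by
    intro x
    by_cases hx : x ∈ O
    · rw [hχ, indicator_of_mem hx, indicator_of_mem ((hper x).2 hx)]
    · rw [hχ, indicator_of_notMem hx, indicator_of_notMem (fun h => hx ((hper x).1 h))]
  have hint : ∀ a b : ℝ, IntervalIntegrable χ volume a b := by
    intro a b
    rw [intervalIntegrable_iff]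
    refine Measure.integrableOn_of_bounded (M := 1) (by simp) ?_ ?_
    · exact (measurable_const.indicator hO.measurableSet).aestronglyMeasurable
    · refine Eventually.of_forall fun x => ?_
      rw [Real.norm_eq_abs, abs_of_nonneg (hχ0 x)]; exact hχ1 x
  set h : ℝ → ℝ := fun x => ∫ t in (0:ℝ)..x, χ t with hh
  have hsub : ∀ x y, h y - h x = ∫ t in x..y, χ t := by
    intro x y
    simp only [hh]
    rw [sub_eq_iff_eq_add, add_comm, intervalIntegral.integral_add_adjacent_intervals (hint _ _) (hint _ _)]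
  have hvol : ∀ x y, x ≤ y → h y - h x = (volume (O ∩ Ioc x y)).toReal := by
    intro x y hxy
    rw [hsub, intervalIntegral.integral_of_le hxy, hχ, integral_indicator hO.measurableSet,
      Measure.restrict_restrict hO.measurableSet]
    simp [measureReal_def]
  have hle : ∀ x y, x ≤ y → h y - h x ≤ y - x := by
    intro x y hxy
    rw [hsub]
    calc ∫ t in x..y, χ t ≤ ∫ t in x..y, (1:ℝ) :=
          intervalIntegral.integral_mono_on hxy (hint _ _) (by simp) (fun t _ => hχ1 t)
      _ = y - x := by simp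
  have hstrict : StrictMono h := by
    intro x y hxy
    have h1 : 0 < h y - h x := by
      rw [hvol x y hxy.le, ENNReal.toReal_pos_iff]
      constructor
      · have h2 : (O ∩ Ioo x y).Nonempty := hd.inter_open_nonempty _ isOpen_Ioo (nonempty_Ioo.2 hxy) |>.mono
          (by rw [inter_comm])
        have h3 := (hO.inter isOpen_Ioo).measure_pos volume h2
        exact h3.trans_le (measure_mono (inter_subset_inter_right _ Ioo_subset_Ioc_self))
      · exact (measure_mono inter_subset_right).trans_lt (by simp)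
    linarith
  have hcont : Continuous h := by
    have : LipschitzWith 1 h := by
      refine LipschitzWith.of_dist_le_mul ?_
      intro x y
      rw [Real.dist_eq, Real.dist_eq, NNReal.coe_one, one_mul]
      rcases le_total x y with hxy | hxy
      · have := hle x y hxy
        have h2 := hstrict.monotone hxy
        rw [abs_sub_comm, abs_of_nonneg (by linarith), abs_sub_comm, abs_of_nonneg (by linarith)]
        exact this
      · have := hle y x hxy
        have h2 := hstrict.monotone hxy
        rw [abs_of_nonneg (by linarith), abs_of_nonneg (by linarith)]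
        exact this
    exact this.continuous
  have h00 : h 0 = 0 := by simp [hh]
  set α : ℝ := h 1 with hα
  have hα0 : 0 < α := by
    have := hstrict (show (0:ℝ) < 1 by norm_num)
    rwa [h00] at this
  have hα1 : α < 1 := by
    have h1 := hvol 0 1 zero_le_one
    rw [h00, sub_zero] at h1
    rw [hα, h1]
    have h2 : volume (O ∩ Ioc 0 1) = volume (O ∩ Ico 0 1) := by
      refine measure_congr ?_
      exact (Filter.EventuallyEq.refl _ _).inter (Ico_ae_eq_Ioc (α := ℝ)).symm
    rw [h2]
    have h3 := ENNReal.toReal_strict_mono (by simp) hm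
    simpa using h3
  have hadd : ∀ x, h (x + 1) = h x + α := by
    intro x
    have h1 := hsub x (x+1)
    have h2 := hsub 0 (0+1)
    rw [hχper.intervalIntegral_add_eq x 0] at h1
    rw [← h2, zero_add, h00, sub_zero] at h1
    linarith
  have hsurj : Function.Surjective h := by
    have hnat : ∀ n : ℕ, h n = n * α := by
      intro n
      induction n with
      | zero => simp [h00]
      | succ n ih => push_cast; rw [hadd, ih]; ring
    have hneg : ∀ n : ℕ, h (-(n:ℝ)) = -(n * α) := by
      intro n
      induction n with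
      | zero => simp [h00]
      | succ n ih =>
        push_cast
        have := hadd (-((n:ℝ)+1))
        have e : -((n:ℝ) + 1) + 1 = -(n:ℝ) := by ring
        rw [e, ih] at this
        linarith
    refine hcont.surjective ?_ ?_
    · refine tendsto_atTop_mono' _ ?_ (tendsto_id.atTop_mul_const hα0 |>.comp (tendsto_atTop_add_const_right atTop (-1:ℝ) tendsto_id))
      filter_upwards [eventually_ge_atTop 1] with x hx
      simp only [Function.comp, id]
      have h1 : ((⌊x⌋₊ : ℕ):ℝ) ≤ x := Nat.floor_le (by linarith)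
      have h2 := hstrict.monotone h1
      rw [hnat] at h2
      have h3 : x - 1 < ⌊x⌋₊ := by
        have := Nat.lt_floor_add_one x; linarith
      nlinarith
    · refine tendsto_atBot_mono' _ ?_ (tendsto_id.atBot_mul_const hα0 |>.comp (tendsto_atBot_add_const_right atBot (1:ℝ) tendsto_id))
      filter_upwards [eventually_le_atBot (-1)] with x hx
      simp only [Function.comp, id]
      have h1 : ((⌊-x⌋₊ : ℕ):ℝ) ≤ -x := Nat.floor_le (by linarith)
      have h2 := hstrict.monotone (show x ≤ -((⌊-x⌋₊ : ℕ):ℝ) by linarith)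
      rw [hneg] at h2
      have h3 : -x - 1 < ⌊-x⌋₊ := by
        have := Nat.lt_floor_add_one (-x); linarith
      nlinarith
  set e : ℝ ≃o ℝ := hstrict.orderIsoOfSurjective h hsurj with he
  have heh : ∀ x, e x = h x := fun x => rfl
  have hgh : ∀ x, e.symm (h x) = x := fun x => by rw [← heh, e.symm_apply_apply]
  have hhg : ∀ y, h (e.symm y) = y := fun y => by rw [← heh, e.apply_symm_apply]
  have hgcont : Continuous (e.symm : ℝ → ℝ) := e.symm.continuous
  have hgadd : ∀ y, e.symm (y + α) = e.symm y + 1 := by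
    intro y
    rw [← hhg y, ← hadd, hgh, hgh]
  have hnull : volume ((e.symm : ℝ → ℝ) ⁻¹' Oᶜ) = 0 := by
    have hmap : Measure.map h (volume.restrict O) = volume := by
      symm
      refine Measure.ext_of_Ioc _ _ ?_
      intro a b hab
      rw [Measure.map_apply hcont.measurable measurableSet_Ioc,
        Measure.restrict_apply (hcont.measurable measurableSet_Ioc)]
      have h1 : h ⁻¹' (Ioc a b) = Ioc (e.symm a) (e.symm b) := by
        ext x
        simp only [mem_preimage, mem_Ioc]
        constructor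
        · rintro ⟨h1, h2⟩
          constructor
          · rw [← hstrict.lt_iff_lt, hhg]; exact h1
          · rw [← hstrict.le_iff_le, hhg]; exact h2
        · rintro ⟨h1, h2⟩
          rw [← hstrict.lt_iff_lt, hhg] at h1
          rw [← hstrict.le_iff_le, hhg] at h2
          exact ⟨h1, h2⟩
      rw [h1, inter_comm]
      have h2 := hvol (e.symm a) (e.symm b) (e.symm.monotone hab.le)
      rw [hhg, hhg] at h2
      rw [Real.volume_Ioc, h2, ENNReal.ofReal_toReal]
      exact ((measure_mono inter_subset_right).trans_lt (by simp)).ne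
    rw [← hmap, Measure.map_apply hcont.measurable (hgcont.measurable hO.measurableSet.compl),
      Measure.restrict_apply (hcont.measurable (hgcont.measurable hO.measurableSet.compl))]
    convert measure_empty (μ := (volume : Measure ℝ)) using 2
    ext x
    simp only [mem_inter_iff, mem_preimage, mem_compl_iff, mem_empty_iff_false, iff_false, not_and]
    intro hx
    rw [hgh] at hx
    exact hx
  refine ⟨fun x => e.symm (α * x) - α * x, (fun x => e.symm (α * x)) ⁻¹' Oᶜ, 1 - α, ?_, ?_, by linarith,
    ?_, ?_, ?_, ?_, ?_⟩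
  · fun_prop
  · intro x y hxy
    have h1 : α * x ≤ α * y := by nlinarith
    have h2 := hle _ _ (e.symm.monotone h1)
    rw [hhg, hhg] at h2
    simp only
    linarith
  · intro x
    simp only
    rw [mul_add, mul_one, hgadd]; ring
  · exact (hO.isClosed_compl).preimage (by fun_prop)
  · have h1 : (fun x => e.symm (α * x)) ⁻¹' Oᶜ = (fun x => α * x) ⁻¹' ((e.symm : ℝ → ℝ) ⁻¹' Oᶜ) := rfl
    rw [h1, Real.volume_preimage_mul_left hα0.ne', hnull, mul_zero]
  · intro x
    simp only [mem_preimage, mem_compl_iff]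
    rw [mul_add, mul_one, hgadd, hper]
  · intro x y hxy hz
    simp only
    have h1 : α * x ≤ α * y := by nlinarith
    have h2 : e.symm (α * x) ≤ e.symm (α * y) := e.symm.monotone h1
    have h3 : ∀ s ∈ Icc (e.symm (α * x)) (e.symm (α * y)), s ∈ O := by
      intro s hs
      by_contra hsO
      have h4 := hstrict.monotone hs.1
      have h5 := hstrict.monotone hs.2
      rw [hhg] at h4 h5
      refine hz (h s / α) ⟨?_, ?_⟩ ?_
      · rw [le_div_iff₀ hα0]; linarith
      · rw [div_le_iff₀ hα0]; linarith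
      · simp only [mem_preimage, mem_compl_iff]
        rw [mul_div_cancel₀ _ hα0.ne', hgh]
        exact hsO
    have h6 := hvol _ _ h2
    have h7 : O ∩ Ioc (e.symm (α * x)) (e.symm (α * y)) = Ioc (e.symm (α * x)) (e.symm (α * y)) := by
      rw [inter_eq_right]
      intro s hs
      exact h3 s (Ioc_subset_Icc_self hs)
    rw [h7, hhg, hhg, Real.volume_Ioc, ENNReal.toReal_ofReal (by linarith)] at h6
    linarith

end Pool.Agent.Lib.B7ec12
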