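import Mathlib
import Pool.Agent.Lib.MP_b7ec12_an.Flow

set_option autoImplicit false
open MeasureTheory Set Filter Topology
open scoped ENNReal

namespace Pool.Agent.Lib.B7ec12
namespace Profile

variable (P : Profile)

theorem scale_lintegral (c : ℝ) (hc : 0 ≤ c) (H : ℝ → ℝ≥0∞) :
    ∫⁻ b in Ioo 0 c, H (b / c) = ENNReal.ofReal c * ∫⁻ θ in Ioo (0:ℝ) 1, H θ := by
  rcases hc.eq_or_lt with h | h
  · rw [← h]; simp
  · have h1 : (fun x => c * x) '' Ioo (0:ℝ) 1 = Ioo 0 c := by
      rw [image_mul_left_Ioo h]; simp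
    rw [← h1, lintegral_image_eq_lintegral_abs_deriv_mul (f' := fun _ => c) measurableSet_Ioo
      (fun x _ => by
        have := ((hasDerivAt_id x).const_mul c).hasDerivWithinAt (s := Ioo (0:ℝ) 1)
        simpa using this) (fun x _ y _ hxy => by simpa [h.ne'] using hxy)]
    rw [← lintegral_const_mul' _ _ (by simp)]
    refine lintegral_congr fun x => ?_
    rw [abs_of_pos h]
    congr 2
    field_simp

/-- invariance of weighted integrals under the one-dimensional flow -/
theorem lintegral_shift (G : ℝ → ℝ≥0∞) (hG : ∀ q, G (q + 1) = G q) (t : ℝ) :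
    ∫⁻ a in Ico (0:ℝ) 1, ENNReal.ofReal (P.w a) * G (P.p a t) =
      ∫⁻ r in Ioc (0:ℝ) P.A, G (P.phi r) := by
  have h1 := P.lintegral_comp_phi 0 1 zero_le_one (fun x => G (P.p x t))
  rw [P.tau_zero] at h1
  have h2 : ∫⁻ a in Ico (0:ℝ) 1, ENNReal.ofReal (P.w a) * G (P.p a t) =
      ∫⁻ a in Icc (0:ℝ) 1, ENNReal.ofReal (P.w a) * G (P.p a t) :=
    setLIntegral_congr Ico_ae_eq_Icc
  rw [h2, ← h1]
  have h3 : ∫⁻ r in Icc 0 (P.tau 1), G (P.p (P.phi r) t) = ∫⁻ r in Ioc 0 P.A, G (P.phi (r + t)) := by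
    rw [show P.tau 1 = P.A from rfl]
    rw [setLIntegral_congr Ioc_ae_eq_Icc.symm]
    simp only [p, P.tau_phi]
  rw [h3]
  have hm : MeasurePreserving (fun r : ℝ => r + t) volume volume := measurePreserving_add_right _ _
  have h4 : Ioc 0 P.A = (fun r => r + t) ⁻¹' (Ioc t (t + P.A)) := by
    rw [preimage_add_const_Ioc]; simp
  rw [h4, hm.setLIntegral_comp_preimage_emb (measurableEmbedding_addRight t) (fun r => G (P.phi r))]
  have h5 := (isAddFundamentalDomain_Ioc P.A_pos t volume).setLIntegral_eq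
    (isAddFundamentalDomain_Ioc P.A_pos 0 volume) (fun r => G (P.phi r)) (by
      have hper : Function.Periodic (fun r => G (P.phi r)) P.A := by
        intro r
        simp only [P.phi_add, hG]
      exact hper.map_vadd_zmultiples)
  rw [h5, zero_add, ← h4]

/-- The flow on the plane. -/
noncomputable def XX (t : ℝ) (z : ℝ × ℝ) : ℝ × ℝ :=
  if 0 < z.2 ∧ z.2 < P.w z.1 then (P.p z.1 t, z.2 / P.w z.1 * P.w (P.p z.1 t)) else z

theorem measurable_XX : Measurable (fun q : ℝ × (ℝ × ℝ) => P.XX q.1 q.2) := by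
  have h1 := P.cont_p.measurable
  have h2 := P.cont.measurable
  have hA : MeasurableSet {q : ℝ × (ℝ × ℝ) | 0 < q.2.2} :=
    measurableSet_lt measurable_const (measurable_snd.comp measurable_snd)
  have hB : MeasurableSet {q : ℝ × (ℝ × ℝ) | q.2.2 < P.w q.2.1} :=
    measurableSet_lt (measurable_snd.comp measurable_snd) (h2.comp (measurable_fst.comp measurable_snd))
  unfold XX
  refine Measurable.ite ?_ ?_ measurable_snd
  · exact hA.inter hB
  · have h3 : Measurable (fun q : ℝ × (ℝ × ℝ) => P.p q.2.1 q.1) :=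
      h1.comp (f := fun q : ℝ × (ℝ × ℝ) => (q.2.1, q.1)) (by fun_prop)
    fun_prop

theorem measurable_XX' (t : ℝ) : Measurable (P.XX t) :=
  P.measurable_XX.comp (f := fun z => (t, z)) (by fun_prop)

noncomputable def fr (z : ℝ × ℝ) : ℝ × ℝ := (Int.fract z.1, Int.fract z.2)

theorem measurable_fr : Measurable fr := by
  unfold fr
  exact (measurable_fract.comp measurable_fst).prodMk (measurable_fract.comp measurable_snd)

theorem lintegral_XX (t : ℝ) (F : ℝ × ℝ → ℝ≥0∞) (hF : Measurable F) :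
    ∫⁻ z in (Ico (0:ℝ) 1) ×ˢ (Ico (0:ℝ) 1), F (fr (P.XX t z)) =
      (∫⁻ r in Ioc (0:ℝ) P.A, ∫⁻ θ in Ioo (0:ℝ) 1, F (Int.fract (P.phi r), θ * P.w (P.phi r))) +
      ∫⁻ a in Ico (0:ℝ) 1, ∫⁻ b in Ico (0:ℝ) 1 \ Ioo 0 (P.w a), F (a, b) := by
  have hmeas : Measurable (fun z => F (fr (P.XX t z))) :=
    hF.comp (measurable_fr.comp (P.measurable_XX' t))
  set G : ℝ → ℝ≥0∞ := fun q => ∫⁻ θ in Ioo (0:ℝ) 1, F (Int.fract q, θ * P.w q) with hG
  have hGm : Measurable G := by
    refine Measurable.lintegral_prod_right' (f := fun z : ℝ × ℝ => F (Int.fract z.1, z.2 * P.w z.1)) ?_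
    refine hF.comp ?_
    have h2 := P.cont.measurable
    have h3 : Measurable (fun z : ℝ × ℝ => Int.fract z.1) := measurable_fract.comp measurable_fst
    fun_prop
  have hGper : ∀ q, G (q + 1) = G q := by
    intro q
    simp only [hG, Int.fract_add_one, P.per]
  have h0 := P.lintegral_shift G hGper t
  rw [← h0]
  rw [Measure.volume_eq_prod, setLIntegral_prod _ hmeas.aemeasurable]
  have hGp : Measurable (fun a => ENNReal.ofReal (P.w a) * G (P.p a t)) := by
    have h2 := P.cont.measurable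
    have h3 : Measurable (fun a => P.p a t) :=
      P.cont_p.measurable.comp (f := fun a => (a, t)) (by fun_prop)
    exact (h2.ennreal_ofReal).mul (hGm.comp h3)
  rw [← lintegral_add_left hGp]
  refine setLIntegral_congr_fun measurableSet_Ico ?_
  intro a ha
  simp only
  have hsub : Ioo 0 (P.w a) ⊆ Ico (0:ℝ) 1 := by
    intro b hb
    exact ⟨hb.1.le, hb.2.trans_le ((P.le_half a).trans (by norm_num))⟩
  have hdec : Ico (0:ℝ) 1 = Ioo 0 (P.w a) ∪ (Ico (0:ℝ) 1 \ Ioo 0 (P.w a)) := by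
    rw [union_sdiff_cancel hsub]
  conv_lhs => rw [hdec]
  rw [lintegral_union (measurableSet_Ico.diff measurableSet_Ioo) disjoint_sdiff_right]
  congr 1
  · rw [hG]
    simp only
    rw [← scale_lintegral (P.w a) (P.nonneg a)
      (fun θ => F (Int.fract (P.p a t), θ * P.w (P.p a t)))]
    refine setLIntegral_congr_fun measurableSet_Ioo ?_
    intro b hb
    simp only
    have hb' : 0 < (a, b).2 ∧ (a, b).2 < P.w (a, b).1 := hb
    rw [XX, if_pos hb', fr]
    simp only
    congr 2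
    rw [Int.fract_eq_self]
    have h1 : 0 < P.w a := hb.1.trans hb.2
    have h2 := P.nonneg (P.p a t)
    have h3 := P.le_half (P.p a t)
    have h4 : b / P.w a < 1 := by rw [div_lt_one h1]; exact hb.2
    have h5 : 0 < b / P.w a := div_pos hb.1 h1
    constructor
    · positivity
    · nlinarith
  · refine setLIntegral_congr_fun (measurableSet_Ico.diff measurableSet_Ioo) ?_
    intro b hb
    simp only
    have hb' : ¬ (0 < (a, b).2 ∧ (a, b).2 < P.w (a, b).1) := hb.2
    rw [XX, if_neg hb', fr]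
    simp only
    rw [Int.fract_eq_self.2 ha, Int.fract_eq_self.2 hb.1]

theorem XX_zero (z : ℝ × ℝ) : P.XX 0 z = z := by
  unfold XX
  split_ifs with h
  · have : P.w z.1 ≠ 0 := (h.1.trans h.2).ne'
    rw [P.p_zero]
    ext
    · rfl
    · simp only; field_simp
  · rfl

theorem map_XX (t : ℝ) :
    Measure.map (fun z => fr (P.XX t z)) (volume.restrict ((Ico (0:ℝ) 1) ×ˢ (Ico (0:ℝ) 1))) =
      volume.restrict ((Ico (0:ℝ) 1) ×ˢ (Ico (0:ℝ) 1)) := by
  have hm : Measurable (fun z => fr (P.XX t z)) := measurable_fr.comp (P.measurable_XX' t)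
  refine Measure.ext_of_lintegral _ ?_
  intro F hF
  rw [lintegral_map hF hm, P.lintegral_XX t F hF, ← P.lintegral_XX 0 F hF]
  refine setLIntegral_congr_fun (measurableSet_Ico.prod measurableSet_Ico) ?_
  rintro ⟨a, b⟩ ⟨ha, hb⟩
  simp only
  rw [P.XX_zero, fr]
  simp only
  rw [Int.fract_eq_self.2 ha, Int.fract_eq_self.2 hb]

end Profile

end Pool.Agent.Lib.B7ec12
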