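import Mathlib

set_option autoImplicit false
open MeasureTheory Set Filter Topology
open scoped ENNReal

namespace Pool.Agent.Lib.B7ec12

structure Stair where
  κ : ℝ → ℝ
  β : ℝ
  cont : Continuous κ
  mono : Monotone κ
  β_pos : 0 < β
  add : ∀ x, κ (x + 1) = κ x + β

noncomputable def dd (y : ℝ) : ℝ := Real.sin (Real.pi * y) ^ 2 / 4
noncomputable def dd' (y : ℝ) : ℝ := Real.pi * Real.sin (Real.pi * y) * Real.cos (Real.pi * y) / 2

theorem hasDerivAt_dd (y : ℝ) : HasDerivAt dd (dd' y) y := by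
  have h1 : HasDerivAt (fun y : ℝ => Real.pi * y) Real.pi y := by
    simpa using (hasDerivAt_id y).const_mul Real.pi
  have h2 := ((h1.sin).pow 2).div_const 4
  convert! h2 using 1
  simp only [dd']
  ring

theorem cont_dd : Continuous dd := by unfold dd; fun_prop
theorem cont_dd' : Continuous dd' := by unfold dd'; fun_prop

theorem dd_nonneg (y : ℝ) : 0 ≤ dd y := by unfold dd; positivity

theorem dd_le (y : ℝ) : dd y ≤ 1/4 := by
  unfold dd
  have := Real.sin_sq_le_one (Real.pi * y)
  linarith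

theorem dd_le_self (y : ℝ) (hy : 0 ≤ y) : dd y ≤ y := by
  unfold dd
  have h1 := Real.sin_sq_le_one (Real.pi * y)
  have h2 : |Real.sin (Real.pi * y)| ≤ Real.pi * y := by
    have := Real.abs_sin_le_abs (x := Real.pi * y)
    rwa [abs_of_nonneg (a := Real.pi * y) (by positivity)] at this
  have h3 : Real.sin (Real.pi * y) ^ 2 ≤ |Real.sin (Real.pi * y)| := by
    rw [← sq_abs]
    have h4 := Real.abs_sin_le_one (Real.pi * y)
    have h5 := abs_nonneg (Real.sin (Real.pi * y))
    nlinarith
  have h6 := Real.pi_le_four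
  nlinarith

theorem dd_add (y : ℝ) (n : ℤ) : dd (y + n) = dd y := by
  unfold dd
  rw [mul_add, mul_comm Real.pi (n:ℝ), Real.sin_add_int_mul_pi]
  rw [mul_pow]
  have : ((-1:ℝ) ^ n) ^ 2 = 1 := by
    rw [← zpow_natCast, ← zpow_mul, mul_comm, zpow_mul]; simp
  rw [this, one_mul]

theorem abs_dd'_le (y : ℝ) : |dd' y| ≤ 2 := by
  unfold dd'
  have h1 := Real.abs_sin_le_one (Real.pi * y)
  have h2 := Real.abs_cos_le_one (Real.pi * y)
  have h3 := Real.pi_le_four
  rw [abs_div, abs_mul, abs_mul, abs_of_pos Real.pi_pos, abs_of_pos (show (0:ℝ) < 2 by norm_num)]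
  have h4 := abs_nonneg (Real.sin (Real.pi * y))
  have h5 := abs_nonneg (Real.cos (Real.pi * y))
  have h6 : |Real.sin (Real.pi * y)| * |Real.cos (Real.pi * y)| ≤ 1 := by nlinarith
  have h7 := Real.pi_pos
  rw [div_le_iff₀ (by norm_num)]
  nlinarith

theorem countable_dd : {y | dd y = 0}.Countable := by
  refine (countable_range (fun n : ℤ => (n:ℝ))).mono ?_
  intro y hy
  simp only [mem_ofPred_eq, dd] at hy
  have h1 : Real.sin (Real.pi * y) = 0 := by
    have : Real.sin (Real.pi * y) ^ 2 = 0 := by linarith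
    exact pow_eq_zero_iff (two_ne_zero) |>.1 this
  obtain ⟨n, hn⟩ := Real.sin_eq_zero_iff.1 h1
  refine ⟨n, ?_⟩
  have h2 := Real.pi_ne_zero
  simp only
  rw [mul_comm] at hn
  exact mul_left_cancel₀ h2 hn

namespace Stair
variable (c : Stair)

noncomputable def K (x : ℝ) : ℝ := ∫ t in (0:ℝ)..x, c.κ t

theorem hasDerivAt_K (x : ℝ) : HasDerivAt c.K (c.κ x) x :=
  intervalIntegral.integral_hasDerivAt_right (c.cont.intervalIntegrable _ _)
    (c.cont.stronglyMeasurableAtFilter _ _) c.cont.continuousAt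

theorem cont_K : Continuous c.K :=
  continuous_iff_continuousAt.2 fun x => (c.hasDerivAt_K x).continuousAt

theorem K_sub (x y : ℝ) : c.K y - c.K x = ∫ t in x..y, c.κ t := by
  have hint : ∀ a b : ℝ, IntervalIntegrable c.κ volume a b := fun a b => c.cont.intervalIntegrable _ _
  simp only [K]
  rw [sub_eq_iff_eq_add, add_comm, intervalIntegral.integral_add_adjacent_intervals (hint _ _) (hint _ _)]

noncomputable def u (z : ℝ × ℝ) : ℝ :=
  (1/2) * (∫ s in (-1:ℝ)..1, c.κ (z.1 + dd z.2 * s)) - c.β * z.1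

theorem cont_u : Continuous c.u := by
  unfold u
  have h1 := c.cont
  have h2 := cont_dd
  have h3 : Continuous (fun z : ℝ × ℝ => ∫ s in (-1:ℝ)..1, c.κ (z.1 + dd z.2 * s)) := by
    refine intervalIntegral.continuous_parametric_intervalIntegral_of_continuous'
      (f := fun (z : ℝ × ℝ) s => c.κ (z.1 + dd z.2 * s)) ?_ _ _
    simp only [Function.uncurry_def]
    fun_prop
  fun_prop

theorem u_add_left (a b : ℝ) (n : ℤ) : c.u (a + n, b) = c.u (a, b) := by
  have hn : ∀ (n : ℤ) x, c.κ (x + n) = c.κ x + n * c.β := by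
    intro n
    induction n using Int.induction_on with
    | zero => simp
    | succ n ih =>
      intro x; push_cast
      have := c.add (x + n)
      rw [← add_assoc, this]
      have h2 := ih x
      push_cast at h2
      rw [h2]; ring
    | pred n ih =>
      intro x; push_cast
      have := c.add (x + (-(n:ℝ) - 1))
      have h2 := ih x
      push_cast at h2
      have h3 : x + (-(n:ℝ) - 1) + 1 = x + -(n:ℝ) := by ring
      rw [h3, h2] at this
      linarith
  unfold u
  simp only
  have h1 : ∀ s, c.κ (a + n + dd b * s) = c.κ (a + dd b * s) + n * c.β := by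
    intro s
    rw [← hn n]; congr 1; ring
  simp_rw [h1]
  have h2 := c.cont
  rw [intervalIntegral.integral_add (Continuous.intervalIntegrable (by fun_prop) _ _)
    (Continuous.intervalIntegrable (by fun_prop) _ _)]
  simp
  ring

theorem u_add_right (a b : ℝ) (n : ℤ) : c.u (a, b + n) = c.u (a, b) := by
  unfold u
  simp only [dd_add]

theorem u_eq (a b : ℝ) (hb : dd b ≠ 0) :
    c.u (a, b) = (c.K (a + dd b) - c.K (a - dd b)) / (2 * dd b) - c.β * a := by
  unfold u
  simp only
  rw [intervalIntegral.integral_comp_add_mul _ hb, c.K_sub, smul_eq_mul]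
  have e1 : a + dd b * (-1) = a - dd b := by ring
  have e2 : a + dd b * 1 = a + dd b := by ring
  rw [e1, e2]
  field_simp

noncomputable def G (z : ℝ × ℝ) : ℝ := (c.κ (z.1 + dd z.2) - c.κ (z.1 - dd z.2)) / (2 * dd z.2)

noncomputable def D1 (z : ℝ × ℝ) : ℝ := c.G z - c.β

noncomputable def D2 (z : ℝ × ℝ) : ℝ :=
  dd' z.2 * ((c.κ (z.1 + dd z.2) + c.κ (z.1 - dd z.2)) / (2 * dd z.2) -
    (c.K (z.1 + dd z.2) - c.K (z.1 - dd z.2)) / (2 * dd z.2 ^ 2))

theorem hasDerivAt_u1 (a b : ℝ) (hb : dd b ≠ 0) :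
    HasDerivAt (fun a => c.u (a, b)) (c.D1 (a, b)) a := by
  have h1 : (fun a => c.u (a, b)) = fun a =>
      (c.K (a + dd b) - c.K (a - dd b)) / (2 * dd b) - c.β * a := by
    funext a; exact c.u_eq a b hb
  rw [h1]
  have h2 : HasDerivAt (fun a => c.K (a + dd b)) (c.κ (a + dd b)) a := by
    simpa using (c.hasDerivAt_K (a + dd b)).comp_add_const a (dd b)
  have h3 : HasDerivAt (fun a => c.K (a - dd b)) (c.κ (a - dd b)) a := by
    simpa using (c.hasDerivAt_K (a - dd b)).comp_sub_const a (dd b)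
  have h4 : HasDerivAt (fun a => c.β * a) c.β a := by
    simpa using (hasDerivAt_id a).const_mul c.β
  exact ((h2.sub h3).div_const _).sub h4

theorem hasDerivAt_u2 (a b : ℝ) (hb : dd b ≠ 0) :
    HasDerivAt (fun b => c.u (a, b)) (c.D2 (a, b)) b := by
  have h1 : (fun b => c.u (a, b)) =ᶠ[𝓝 b] fun b =>
      (c.K (a + dd b) - c.K (a - dd b)) / (2 * dd b) - c.β * a := by
    have : {b | dd b ≠ 0} ∈ 𝓝 b := (isOpen_ne_fun cont_dd continuous_const).mem_nhds hb
    filter_upwards [this] with b hb
    exact c.u_eq a b hb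
  refine HasDerivAt.congr_of_eventuallyEq ?_ h1
  have h2 : HasDerivAt (c.K ∘ (fun b => a + dd b)) (c.κ (a + dd b) * dd' b) b :=
    (c.hasDerivAt_K (a + dd b)).comp b ((hasDerivAt_dd b).const_add a)
  have h3 : HasDerivAt (c.K ∘ (fun b => a - dd b)) (c.κ (a - dd b) * (- dd' b)) b :=
    (c.hasDerivAt_K (a - dd b)).comp b ((hasDerivAt_dd b).const_sub a)
  have h4 : HasDerivAt (fun b => 2 * dd b) (2 * dd' b) b := (hasDerivAt_dd b).const_mul 2
  have h5 := ((h2.sub h3).div h4 (by simpa using hb)).sub_const (c.β * a)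
  convert! h5 using 1
  simp only [D2, Pi.sub_apply, Function.comp_apply]
  field_simp
  ring

theorem G_nonneg (z : ℝ × ℝ) : 0 ≤ c.G z := by
  unfold G
  have h1 := dd_nonneg z.2
  have h2 : c.κ (z.1 - dd z.2) ≤ c.κ (z.1 + dd z.2) := c.mono (by linarith)
  exact div_nonneg (by linarith) (by linarith)

theorem abs_D1_le (z : ℝ × ℝ) : |c.D1 z| ≤ c.G z + c.β := by
  unfold D1
  have h1 := c.G_nonneg z
  have h2 := c.β_pos
  rw [abs_le]; constructor <;> linarith

theorem abs_D2_le (z : ℝ × ℝ) : |c.D2 z| ≤ 2 * c.G z := by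
  rcases (dd_nonneg z.2).eq_or_lt with h | h
  · unfold D2 G
    rw [← h]; simp
  · unfold D2
    rw [abs_mul]
    have h1 := abs_dd'_le z.2
    have h2 : |(c.κ (z.1 + dd z.2) + c.κ (z.1 - dd z.2)) / (2 * dd z.2) -
        (c.K (z.1 + dd z.2) - c.K (z.1 - dd z.2)) / (2 * dd z.2 ^ 2)| ≤ c.G z := by
      have hle : z.1 - dd z.2 ≤ z.1 + dd z.2 := by linarith
      have h3 : c.K (z.1 + dd z.2) - c.K (z.1 - dd z.2) ≤ 2 * dd z.2 * c.κ (z.1 + dd z.2) := by
        rw [c.K_sub]
        calc ∫ t in (z.1 - dd z.2)..(z.1 + dd z.2), c.κ t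
            ≤ ∫ t in (z.1 - dd z.2)..(z.1 + dd z.2), c.κ (z.1 + dd z.2) :=
              intervalIntegral.integral_mono_on hle (c.cont.intervalIntegrable _ _)
                (by simp) (fun t ht => c.mono ht.2)
          _ = 2 * dd z.2 * c.κ (z.1 + dd z.2) := by
              rw [intervalIntegral.integral_const, smul_eq_mul]; ring
      have h4 : 2 * dd z.2 * c.κ (z.1 - dd z.2) ≤ c.K (z.1 + dd z.2) - c.K (z.1 - dd z.2) := by
        rw [c.K_sub]
        calc 2 * dd z.2 * c.κ (z.1 - dd z.2) = ∫ t in (z.1 - dd z.2)..(z.1 + dd z.2), c.κ (z.1 - dd z.2) := by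
              rw [intervalIntegral.integral_const, smul_eq_mul]; ring
          _ ≤ ∫ t in (z.1 - dd z.2)..(z.1 + dd z.2), c.κ t :=
              intervalIntegral.integral_mono_on hle (by simp) (c.cont.intervalIntegrable _ _)
                (fun t ht => c.mono ht.1)
      have h5 : (c.κ (z.1 + dd z.2) + c.κ (z.1 - dd z.2)) / (2 * dd z.2) -
        (c.K (z.1 + dd z.2) - c.K (z.1 - dd z.2)) / (2 * dd z.2 ^ 2) =
        (dd z.2 * (c.κ (z.1 + dd z.2) + c.κ (z.1 - dd z.2)) -
          (c.K (z.1 + dd z.2) - c.K (z.1 - dd z.2))) / (2 * dd z.2 ^ 2) := by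
        field_simp
      have h6 : c.G z = (dd z.2 * (c.κ (z.1 + dd z.2) - c.κ (z.1 - dd z.2))) / (2 * dd z.2 ^ 2) := by
        unfold G; field_simp
      rw [h5, h6, abs_div, abs_of_pos (show 0 < 2 * dd z.2 ^ 2 by positivity)]
      gcongr
      rw [abs_le]
      constructor
      · linarith
      · linarith
    have h3 := c.G_nonneg z
    have h4 := abs_nonneg (dd' z.2)
    calc _ ≤ 2 * c.G z := mul_le_mul h1 h2 (abs_nonneg _) (by norm_num)

theorem measurable_G : Measurable c.G := by
  have h1 := c.cont.measurable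
  have h2 := cont_dd.measurable
  unfold G
  fun_prop

theorem measurable_D1 : Measurable c.D1 := by
  have h1 := c.measurable_G
  unfold D1
  fun_prop

theorem measurable_D2 : Measurable c.D2 := by
  have h1 := c.cont.measurable
  have h2 := cont_dd.measurable
  have h3 := cont_dd'.measurable
  have h4 := c.cont_K.measurable
  unfold D2
  fun_prop

theorem cont_G_left (b : ℝ) : Continuous (fun a => c.G (a, b)) := by
  have h1 := c.cont
  unfold G
  simp only
  exact (by fun_prop : Continuous fun a => c.κ (a + dd b) - c.κ (a - dd b)).div_const _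

theorem integral_G_le (R b : ℝ) (hR : 0 ≤ R) :
    ∫ a in (-R)..R, c.G (a, b) ≤ c.κ (R + 1) - c.κ (-R - 1) := by
  have hk : c.κ (-R - 1) ≤ c.κ (R + 1) := c.mono (by linarith)
  rcases (dd_nonneg b).eq_or_lt with h | h
  · unfold G
    simp only [← h]; simpa using hk
  · unfold G
    simp only
    have hc := c.cont
    rw [intervalIntegral.integral_div, intervalIntegral.integral_sub
      (Continuous.intervalIntegrable (by fun_prop) _ _) (Continuous.intervalIntegrable (by fun_prop) _ _),
      intervalIntegral.integral_comp_add_right, intervalIntegral.integral_comp_sub_right,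
      ← c.K_sub, ← c.K_sub, div_le_iff₀ (by linarith)]
    have h1 : c.K (R + dd b) - c.K (-R + dd b) - (c.K (R - dd b) - c.K (-R - dd b)) =
      (c.K (R + dd b) - c.K (R - dd b)) - (c.K (-R + dd b) - c.K (-R - dd b)) := by ring
    rw [h1, c.K_sub, c.K_sub]
    have hd := dd_le b
    have h2 : ∫ t in (R - dd b)..(R + dd b), c.κ t ≤ 2 * dd b * c.κ (R + 1) := by
      calc ∫ t in (R - dd b)..(R + dd b), c.κ t
          ≤ ∫ t in (R - dd b)..(R + dd b), c.κ (R + 1) :=
            intervalIntegral.integral_mono_on (by linarith) (c.cont.intervalIntegrable _ _)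
              (by simp) (fun t ht => c.mono (by linarith [ht.2]))
        _ = 2 * dd b * c.κ (R + 1) := by
            rw [intervalIntegral.integral_const, smul_eq_mul]; ring
    have h3 : 2 * dd b * c.κ (-R - 1) ≤ ∫ t in (-R - dd b)..(-R + dd b), c.κ t := by
      calc 2 * dd b * c.κ (-R - 1) = ∫ t in (-R - dd b)..(-R + dd b), c.κ (-R - 1) := by
            rw [intervalIntegral.integral_const, smul_eq_mul]; ring
        _ ≤ ∫ t in (-R - dd b)..(-R + dd b), c.κ t :=
            intervalIntegral.integral_mono_on (by linarith) (by simp) (c.cont.intervalIntegrable _ _)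
              (fun t ht => c.mono (by linarith [ht.1]))
    nlinarith

theorem integrableOn_G (R : ℝ) (hR : 0 ≤ R) : IntegrableOn c.G (Icc (-R) R ×ˢ Icc (-R) R) := by
  unfold IntegrableOn
  rw [Measure.volume_eq_prod, ← Measure.prod_restrict,
    integrable_prod_iff' (c.measurable_G.aestronglyMeasurable)]
  constructor
  · refine Eventually.of_forall fun b => ?_
    exact (c.cont_G_left b).integrableOn_Icc
  · have h1 : Measurable (fun b => ∫ a in Icc (-R) R, ‖c.G (a, b)‖) := by
      have : StronglyMeasurable (fun b => ∫ a in Icc (-R) R, ‖c.G (a, b)‖) :=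
        StronglyMeasurable.integral_prod_left' (f := fun z : ℝ × ℝ => ‖c.G z‖)
          (c.measurable_G.norm.stronglyMeasurable)
      exact this.measurable
    refine Measure.integrableOn_of_bounded (M := c.κ (R + 1) - c.κ (-R - 1)) (by simp)
      h1.aestronglyMeasurable ?_
    refine Eventually.of_forall fun b => ?_
    simp_rw [Real.norm_eq_abs, abs_of_nonneg (c.G_nonneg _)]
    rw [abs_of_nonneg (integral_nonneg fun a => c.G_nonneg _), integral_Icc_eq_integral_Ioc,
      ← intervalIntegral.integral_of_le (by linarith)]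
    exact c.integral_G_le R b hR

theorem integrableOn_D1 (R : ℝ) (hR : 0 ≤ R) : IntegrableOn c.D1 (Icc (-R) R ×ˢ Icc (-R) R) := by
  refine Integrable.mono' ((c.integrableOn_G R hR).add (g := fun _ => c.β) ?_)
    c.measurable_D1.aestronglyMeasurable ?_
  · refine integrableOn_const ?_
    exact ((isCompact_Icc.prod isCompact_Icc).measure_lt_top (μ := volume)).ne
  · exact Eventually.of_forall fun z => c.abs_D1_le z

theorem integrableOn_D2 (R : ℝ) (hR : 0 ≤ R) : IntegrableOn c.D2 (Icc (-R) R ×ˢ Icc (-R) R) := by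
  refine Integrable.mono' ((c.integrableOn_G R hR).const_mul 2)
    c.measurable_D2.aestronglyMeasurable ?_
  exact Eventually.of_forall fun z => c.abs_D2_le z

end Stair

end Pool.Agent.Lib.B7ec12
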