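import Mathlib
import Pool.Agent.Lib.MP_b7ec12_an.Sob

set_option autoImplicit false
open MeasureTheory Set Filter Topology
open scoped ENNReal

namespace Pool.Agent.Lib.B7ec12

theorem ibp1 (v v' ψ ψ' : ℝ → ℝ) (C : Set ℝ) (hC : C.Countable) (hv : Continuous v)
    (hv' : ∀ x, x ∉ C → HasDerivAt v (v' x) x) (R : ℝ) (hR : 0 ≤ R)
    (hint : IntegrableOn v' (Icc (-R) R))
    (hψ : ∀ x, HasDerivAt ψ (ψ' x) x) (hψ'c : Continuous ψ')
    (hsupp : ∀ x, R ≤ |x| → ψ x = 0) (hsupp' : ∀ x, R ≤ |x| → ψ' x = 0) :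
    ∫ x, ψ' x * v x = - ∫ x, ψ x * v' x := by
  have hψc : Continuous ψ := continuous_iff_continuousAt.2 fun x => (hψ x).continuousAt
  have s1 : Function.support (fun x => ψ' x * v x) ⊆ Ioc (-R) R := by
    intro x hx
    by_contra h
    have : R ≤ |x| := by
      by_contra h2
      rw [not_le, abs_lt] at h2
      exact h ⟨h2.1, h2.2.le⟩
    exact hx (by simp [hsupp' x this])
  have s2 : Function.support (fun x => ψ x * v' x) ⊆ Ioc (-R) R := by
    intro x hx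
    by_contra h
    have : R ≤ |x| := by
      by_contra h2
      rw [not_le, abs_lt] at h2
      exact h ⟨h2.1, h2.2.le⟩
    exact hx (by simp [hsupp x this])
  rw [← intervalIntegral.integral_eq_integral_of_support_subset s1,
    ← intervalIntegral.integral_eq_integral_of_support_subset s2]
  have i1 : IntervalIntegrable (fun x => ψ' x * v x) volume (-R) R :=
    (hψ'c.mul hv).intervalIntegrable _ _
  have i0 : IntervalIntegrable v' volume (-R) R := by
    rw [intervalIntegrable_iff_integrableOn_Icc_of_le (by linarith)]; exact hint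
  have i2 : IntervalIntegrable (fun x => ψ x * v' x) volume (-R) R :=
    i0.continuousOn_mul hψc.continuousOn
  have h1 := MeasureTheory.integral_eq_of_hasDerivAt_off_countable_of_le (fun x => ψ x * v x)
    (fun x => ψ' x * v x + ψ x * v' x) (a := -R) (b := R) (by linarith) hC
    ((hψc.mul hv).continuousOn) (fun x hx => (hψ x).mul (hv' x hx.2)) (i1.add i2)
  rw [intervalIntegral.integral_add i1 i2] at h1
  have e1 : ψ R = 0 := hsupp R (le_abs_self R)
  have e2 : ψ (-R) = 0 := hsupp (-R) (by rw [abs_neg]; exact le_abs_self R)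
  simp only [e1, e2, zero_mul, sub_zero] at h1
  linarith

theorem fubini3 (A B : ℝ × (ℝ × ℝ) → ℝ) (hA : Integrable A) (hB : Integrable B)
    (h : ∀ t, ∀ᵐ b, ∫ a, A (t, (a, b)) = - ∫ a, B (t, (a, b))) : ∫ q, A q = - ∫ q, B q := by
  rw [Measure.volume_eq_prod] at hA hB ⊢
  rw [integral_prod _ hA, integral_prod _ hB, ← integral_neg]
  refine integral_congr_ae ?_
  filter_upwards [hA.prod_right_ae, hB.prod_right_ae] with t hAt hBt
  rw [Measure.volume_eq_prod] at hAt hBt ⊢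
  rw [integral_prod_symm _ hAt, integral_prod_symm _ hBt, ← integral_neg]
  exact integral_congr_ae (h t)

theorem fubini3' (A B : ℝ × (ℝ × ℝ) → ℝ) (hA : Integrable A) (hB : Integrable B)
    (h : ∀ t, ∀ᵐ a, ∫ b, A (t, (a, b)) = - ∫ b, B (t, (a, b))) : ∫ q, A q = - ∫ q, B q := by
  rw [Measure.volume_eq_prod] at hA hB ⊢
  rw [integral_prod _ hA, integral_prod _ hB, ← integral_neg]
  refine integral_congr_ae ?_
  filter_upwards [hA.prod_right_ae, hB.prod_right_ae] with t hAt hBt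
  rw [Measure.volume_eq_prod] at hAt hBt ⊢
  rw [integral_prod _ hAt, integral_prod _ hBt, ← integral_neg]
  exact integral_congr_ae (h t)

/-- coordinates -/
def V (q : ℝ × (ℝ × ℝ)) : ℝ × (Fin 2 → ℝ) := (q.1, ![q.2.1, q.2.2])

theorem V_mp : MeasurePreserving V volume volume := by
  have h := (MeasurePreserving.id (volume : Measure ℝ)).prod
    ((volume_preserving_finTwoArrow ℝ).symm MeasurableEquiv.finTwoArrow)
  exact h

theorem V_emb : MeasurableEmbedding V := by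
  have h := (MeasurableEquiv.prodCongr (MeasurableEquiv.refl ℝ)
    (MeasurableEquiv.finTwoArrow (α := ℝ)).symm).measurableEmbedding
  exact h

theorem V_cont : Continuous V := by
  unfold V
  refine continuous_fst.prodMk (continuous_pi fun i => ?_)
  fin_cases i
  · exact (continuous_fst.comp continuous_snd)
  · exact (continuous_snd.comp continuous_snd)

theorem integral_V {E : Type*} [NormedAddCommGroup E] [NormedSpace ℝ E] (F : ℝ × (Fin 2 → ℝ) → E) :
    ∫ p, F p = ∫ q, F (V q) := (V_mp.integral_comp V_emb F).symm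

section test
variable (φ : ℝ × (Fin 2 → ℝ) → ℝ) (hφ : ContDiff ℝ 1 φ) (hc : HasCompactSupport φ)

include hc in
theorem exists_R : ∃ R : ℝ, 0 ≤ R ∧ ∀ q : ℝ × (ℝ × ℝ), (R ≤ |q.1| ∨ R ≤ |q.2.1| ∨ R ≤ |q.2.2|) →
    φ (V q) = 0 ∧ fderiv ℝ φ (V q) = 0 := by
  obtain ⟨R, hR⟩ := hc.isBounded.subset_closedBall 0
  refine ⟨max R 0 + 1, by positivity, ?_⟩
  intro q hq
  have hV : V q ∉ tsupport φ := by
    intro h
    have h1 := hR h
    rw [mem_closedBall_zero_iff] at h1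
    have h2 : |q.1| ≤ ‖V q‖ := norm_fst_le (V q)
    have h3 : ‖(V q).2‖ ≤ ‖V q‖ := norm_snd_le (V q)
    have h4 : |q.2.1| ≤ ‖(V q).2‖ := norm_le_pi_norm (V q).2 0
    have h5 : |q.2.2| ≤ ‖(V q).2‖ := norm_le_pi_norm (V q).2 1
    have h6 : R ≤ max R 0 := le_max_left _ _
    rcases hq with h | h | h <;> linarith
  exact ⟨image_eq_zero_of_notMem_tsupport hV, fderiv_of_notMem_tsupport ℝ hV⟩

include hφ in
theorem cont_fderiv (v : ℝ × (Fin 2 → ℝ)) : Continuous (fun q => fderiv ℝ φ (V q) v) := by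
  have h1 : Continuous (fderiv ℝ φ) := hφ.continuous_fderiv (by norm_num)
  exact (h1.comp V_cont).clm_apply continuous_const

include hφ hc in
theorem int_A (v : ℝ × (Fin 2 → ℝ)) (u : ℝ × ℝ → ℝ) (hu : Continuous u) :
    Integrable (fun q : ℝ × (ℝ × ℝ) => fderiv ℝ φ (V q) v * u q.2) := by
  obtain ⟨R, hR, h⟩ := exists_R φ hc
  refine Continuous.integrable_of_hasCompactSupport
    ((cont_fderiv φ hφ v).mul (hu.comp continuous_snd)) ?_
  refine HasCompactSupport.intro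
    (K := Icc (-R) R ×ˢ (Icc (-R) R ×ˢ Icc (-R) R))
    (isCompact_Icc.prod (isCompact_Icc.prod isCompact_Icc)) ?_
  intro q hq
  have : (R ≤ |q.1| ∨ R ≤ |q.2.1| ∨ R ≤ |q.2.2|) := by
    by_contra h2
    push Not at h2
    obtain ⟨h3, h4, h5⟩ := h2
    rw [abs_lt] at h3 h4 h5
    exact hq ⟨⟨h3.1.le, h3.2.le⟩, ⟨h4.1.le, h4.2.le⟩, ⟨h5.1.le, h5.2.le⟩⟩
  simp [(h q this).2]

include hφ hc in
theorem int_B (D : ℝ × ℝ → ℝ) (hD : ∀ R : ℝ, 0 ≤ R → IntegrableOn D (Icc (-R) R ×ˢ Icc (-R) R)) :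
    Integrable (fun q : ℝ × (ℝ × ℝ) => φ (V q) * D q.2) := by
  obtain ⟨R, hR, h⟩ := exists_R φ hc
  have h1 : Integrable (fun q : ℝ × (ℝ × ℝ) =>
      (Icc (-R) R).indicator (fun _ => (1:ℝ)) q.1 * (Icc (-R) R ×ˢ Icc (-R) R).indicator D q.2) := by
    rw [Measure.volume_eq_prod]
    refine Integrable.mul_prod ?_ ?_
    · exact (integrable_indicator_iff measurableSet_Icc).2 (integrableOn_const (by simp))
    · exact (integrable_indicator_iff (measurableSet_Icc.prod measurableSet_Icc)).2 (hD R hR)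
  obtain ⟨M, hM⟩ := hc.exists_bound_of_continuous hφ.continuous
  have h2 := h1.bdd_mul (c := M) (f := fun q => φ (V q))
    ((hφ.continuous.comp V_cont).aestronglyMeasurable) (Eventually.of_forall fun q => hM (V q))
  refine h2.congr (Eventually.of_forall fun q => ?_)
  simp only
  by_cases hq : q ∈ Icc (-R) R ×ˢ (Icc (-R) R ×ˢ Icc (-R) R)
  · rw [indicator_of_mem hq.1, indicator_of_mem hq.2, one_mul]
  · have : (R ≤ |q.1| ∨ R ≤ |q.2.1| ∨ R ≤ |q.2.2|) := by
      by_contra h2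
      push Not at h2
      obtain ⟨h3, h4, h5⟩ := h2
      rw [abs_lt] at h3 h4 h5
      exact hq ⟨⟨h3.1.le, h3.2.le⟩, ⟨h4.1.le, h4.2.le⟩, ⟨h5.1.le, h5.2.le⟩⟩
    simp [(h q this).1]

theorem line_t (t a b : ℝ) : HasDerivAt (fun t => V (t, (a, b))) ((1:ℝ), (0 : Fin 2 → ℝ)) t := by
  have h : (fun t => V (t, (a, b))) = fun t => (t, (![a, b] : Fin 2 → ℝ)) := rfl
  rw [h]
  exact (hasDerivAt_id' t).prodMk (hasDerivAt_const t (![a, b] : Fin 2 → ℝ))

theorem line_a (t a b : ℝ) :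
    HasDerivAt (fun a => V (t, (a, b))) ((0:ℝ), (Pi.single 0 (1:ℝ) : Fin 2 → ℝ)) a := by
  unfold V
  refine (hasDerivAt_const _ _).prodMk (hasDerivAt_pi.2 fun i => ?_)
  fin_cases i
  · simpa using hasDerivAt_id' a
  · simpa using hasDerivAt_const a b

theorem line_b (t a b : ℝ) :
    HasDerivAt (fun b => V (t, (a, b))) ((0:ℝ), (Pi.single 1 (1:ℝ) : Fin 2 → ℝ)) b := by
  unfold V
  refine (hasDerivAt_const _ _).prodMk (hasDerivAt_pi.2 fun i => ?_)
  fin_cases i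
  · simpa using hasDerivAt_const b a
  · simpa using hasDerivAt_id' b

include hφ in
theorem hasFDerivAt_phi (p : ℝ × (Fin 2 → ℝ)) : HasFDerivAt φ (fderiv ℝ φ p) p :=
  (hφ.differentiable (by norm_num) p).hasFDerivAt

include hφ hc in
theorem weak0 (u : ℝ × ℝ → ℝ) (hu : Continuous u) :
    ∫ q : ℝ × (ℝ × ℝ), fderiv ℝ φ (V q) ((1:ℝ), (0 : Fin 2 → ℝ)) * u q.2 = 0 := by
  obtain ⟨R, hR, h⟩ := exists_R φ hc
  have hA := int_A φ hφ hc ((1:ℝ), (0 : Fin 2 → ℝ)) u hu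
  rw [Measure.volume_eq_prod] at hA ⊢
  rw [integral_prod_symm _ hA]
  have h0 : ∀ z : ℝ × ℝ, ∫ t, fderiv ℝ φ (V (t, z)) ((1:ℝ), (0 : Fin 2 → ℝ)) * u z = 0 := by
    rintro ⟨a, b⟩
    have := ibp1 (fun _ => u (a, b)) (fun _ => 0) (fun t => φ (V (t, (a, b))))
      (fun t => fderiv ℝ φ (V (t, (a, b))) ((1:ℝ), (0 : Fin 2 → ℝ))) ∅ countable_empty
      continuous_const (fun x _ => hasDerivAt_const _ _) R hR (by simp)
      (fun t => (hasFDerivAt_phi φ hφ _).comp_hasDerivAt t (line_t t a b))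
      ((cont_fderiv φ hφ _).comp (by fun_prop : Continuous fun t : ℝ => (t, ((a, b) : ℝ × ℝ))))
      (fun t ht => (h (t, (a, b)) (Or.inl ht)).1)
      (fun t ht => by simp [(h (t, (a, b)) (Or.inl ht)).2])
    simpa using this
  simp [h0]

include hφ hc in
theorem weak1 (u D : ℝ × ℝ → ℝ) (hu : Continuous u) (C : Set ℝ) (hC : C.Countable)
    (hD : ∀ R : ℝ, 0 ≤ R → IntegrableOn D (Icc (-R) R ×ˢ Icc (-R) R))
    (hder : ∀ a b, b ∉ C → HasDerivAt (fun a => u (a, b)) (D (a, b)) a) :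
    ∫ q : ℝ × (ℝ × ℝ), fderiv ℝ φ (V q) ((0:ℝ), (Pi.single 0 (1:ℝ) : Fin 2 → ℝ)) * u q.2 =
      - ∫ q : ℝ × (ℝ × ℝ), φ (V q) * D q.2 := by
  obtain ⟨R, hR, h⟩ := exists_R φ hc
  refine fubini3 _ _ (int_A φ hφ hc _ u hu) (int_B φ hφ hc D hD) ?_
  intro t
  have hDR := hD R hR
  unfold IntegrableOn at hDR
  rw [Measure.volume_eq_prod, ← Measure.prod_restrict] at hDR
  have h1 := hDR.prod_left_ae
  rw [ae_restrict_iff' measurableSet_Icc] at h1
  have h2 : ∀ᵐ b : ℝ, b ∉ C := measure_eq_zero_iff_ae_notMem.1 (hC.measure_zero _)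
  filter_upwards [h1, h2] with b hb hbC
  by_cases hbR : b ∈ Icc (-R) R
  · exact ibp1 (fun a => u (a, b)) (fun a => D (a, b)) (fun a => φ (V (t, (a, b))))
      (fun a => fderiv ℝ φ (V (t, (a, b))) ((0:ℝ), (Pi.single 0 (1:ℝ) : Fin 2 → ℝ))) ∅ countable_empty
      (hu.comp (by fun_prop)) (fun x _ => hder x b hbC) R hR (hb hbR)
      (fun a => (hasFDerivAt_phi φ hφ _).comp_hasDerivAt a (line_a t a b))
      ((cont_fderiv φ hφ _).comp (by fun_prop : Continuous fun a : ℝ => (t, ((a, b) : ℝ × ℝ))))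
      (fun a ht => (h (t, (a, b)) (Or.inr (Or.inl ht))).1)
      (fun a ht => by simp [(h (t, (a, b)) (Or.inr (Or.inl ht))).2])
  · have h3 : R ≤ |b| := by
      by_contra h2
      rw [not_le, abs_lt] at h2
      exact hbR ⟨h2.1.le, h2.2.le⟩
    have h4 : ∀ a, φ (V (t, (a, b))) = 0 := fun a => (h (t, (a, b)) (Or.inr (Or.inr h3))).1
    have h5 : ∀ a, fderiv ℝ φ (V (t, (a, b))) = 0 := fun a => (h (t, (a, b)) (Or.inr (Or.inr h3))).2
    simp [h4, h5]

include hφ hc in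
theorem weak2 (u D : ℝ × ℝ → ℝ) (hu : Continuous u) (C : Set ℝ) (hC : C.Countable)
    (hD : ∀ R : ℝ, 0 ≤ R → IntegrableOn D (Icc (-R) R ×ˢ Icc (-R) R))
    (hder : ∀ a b, b ∉ C → HasDerivAt (fun b => u (a, b)) (D (a, b)) b) :
    ∫ q : ℝ × (ℝ × ℝ), fderiv ℝ φ (V q) ((0:ℝ), (Pi.single 1 (1:ℝ) : Fin 2 → ℝ)) * u q.2 =
      - ∫ q : ℝ × (ℝ × ℝ), φ (V q) * D q.2 := by
  obtain ⟨R, hR, h⟩ := exists_R φ hc
  refine fubini3' _ _ (int_A φ hφ hc _ u hu) (int_B φ hφ hc D hD) ?_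
  intro t
  have hDR := hD R hR
  unfold IntegrableOn at hDR
  rw [Measure.volume_eq_prod, ← Measure.prod_restrict] at hDR
  have h1 := hDR.prod_right_ae
  rw [ae_restrict_iff' measurableSet_Icc] at h1
  filter_upwards [h1] with a ha
  by_cases haR : a ∈ Icc (-R) R
  · exact ibp1 (fun b => u (a, b)) (fun b => D (a, b)) (fun b => φ (V (t, (a, b))))
      (fun b => fderiv ℝ φ (V (t, (a, b))) ((0:ℝ), (Pi.single 1 (1:ℝ) : Fin 2 → ℝ))) C hC
      (hu.comp (by fun_prop)) (fun x hx => hder a x hx) R hR (ha haR)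
      (fun b => (hasFDerivAt_phi φ hφ _).comp_hasDerivAt b (line_b t a b))
      ((cont_fderiv φ hφ _).comp (by fun_prop : Continuous fun b : ℝ => (t, ((a, b) : ℝ × ℝ))))
      (fun b ht => (h (t, (a, b)) (Or.inr (Or.inr ht))).1)
      (fun b ht => by simp [(h (t, (a, b)) (Or.inr (Or.inr ht))).2])
  · have h3 : R ≤ |a| := by
      by_contra h2
      rw [not_le, abs_lt] at h2
      exact haR ⟨h2.1.le, h2.2.le⟩
    have h4 : ∀ b, φ (V (t, (a, b))) = 0 := fun b => (h (t, (a, b)) (Or.inr (Or.inl h3))).1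
    have h5 : ∀ b, fderiv ℝ φ (V (t, (a, b))) = 0 := fun b => (h (t, (a, b)) (Or.inr (Or.inl h3))).2
    simp [h4, h5]

end test

end Pool.Agent.Lib.B7ec12
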