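import Mathlib
import Pool.Agent.Lib.MP_b7ec12_an.Cantor
import Pool.Agent.Lib.MP_b7ec12_an.MPres
import Pool.Agent.Lib.MP_b7ec12_an.Weak

set_option autoImplicit false
open MeasureTheory Set Filter Topology
open scoped ENNReal

namespace Pool.Agent.Lib.B7ec12

theorem exists_data : ∃ (P : Profile) (c : Stair), ∀ p q, |q - p| < P.w p → c.κ q = c.κ p := by
  obtain ⟨κ, S, β, hκc, hκm, hβ, hκa, hSc, hS0, hSp, hconst⟩ := exists_cantor
  have hne : S.Nonempty := by
    by_contra h
    rw [not_nonempty_iff_eq_empty] at h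
    have h1 := hconst 0 1 zero_le_one (fun z _ hz => by simp [h] at hz)
    have h2 := hκa 0
    rw [zero_add] at h2
    linarith
  have hiso : Isometry (fun x : ℝ => x + 1) := isometry_add_right 1
  have himg : (fun x : ℝ => x + 1) '' S = S := by
    ext x
    constructor
    · rintro ⟨y, hy, rfl⟩
      exact (hSp y).2 hy
    · intro hx
      refine ⟨x - 1, ?_, by ring⟩
      rw [← hSp (x - 1)]
      simpa using hx
  let P : Profile :=
    { w := fun x => min (Metric.infDist x S) (1/2)
      lip := (Metric.lipschitz_infDist_pt S).min_const (1/2)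
      nonneg := fun x => le_min Metric.infDist_nonneg (by norm_num)
      le_half := fun x => min_le_right _ _
      null := by
        refine measure_mono_null ?_ hS0
        intro x hx
        simp only [mem_ofPred_eq] at hx
        have h1 : Metric.infDist x S = 0 := by
          rcases min_choice (Metric.infDist x S) (1/2) with h | h
          · rw [h] at hx; exact hx
          · rw [h] at hx; norm_num at hx
        rw [← hSc.closure_eq, Metric.mem_closure_iff_infDist_zero hne]
        exact h1
      per := by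
        intro x
        have h1 : Metric.infDist (x + 1) ((fun x : ℝ => x + 1) '' S) = Metric.infDist x S :=
          Metric.infDist_image hiso
        rw [himg] at h1
        rw [h1] }
  let c : Stair :=
    { κ := κ, β := β, cont := hκc, mono := hκm, β_pos := hβ, add := hκa }
  refine ⟨P, c, ?_⟩
  intro p q hpq
  have hpq' : |q - p| < Metric.infDist p S := hpq.trans_le (min_le_left _ _)
  rcases le_total p q with h | h
  · symm
    refine hconst p q h ?_
    intro z hz
    refine Metric.notMem_of_dist_lt_infDist (x := p) ?_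
    rw [Real.dist_eq, abs_sub_comm, abs_of_nonneg (by linarith [hz.1])]
    rw [abs_of_nonneg (by linarith)] at hpq'
    linarith [hz.2]
  · refine hconst q p h ?_
    intro z hz
    refine Metric.notMem_of_dist_lt_infDist (x := p) ?_
    rw [Real.dist_eq, abs_of_nonneg (by linarith [hz.2])]
    rw [abs_sub_comm, abs_of_nonneg (by linarith)] at hpq'
    linarith [hz.1]

section main

variable (P : Profile) (c : Stair) (hc : ∀ p q, |q - p| < P.w p → c.κ q = c.κ p)

include hc in
theorem kap_const (p d s : ℝ) (hd0 : 0 ≤ d) (hd : d < P.w p ∨ d = 0) (hs : |s| ≤ 1) :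
    c.κ (p + d * s) = c.κ p := by
  rcases hd with hd | hd
  · refine hc p _ ?_
    rw [add_sub_cancel_left, abs_mul, abs_of_nonneg hd0]
    nlinarith [abs_nonneg s]
  · rw [hd]; simp

include hc in
theorem u_chan (p y : ℝ) (hy : 0 ≤ y) (h : y < P.w p ∨ y = 0) : c.u (p, y) = c.κ p - c.β * p := by
  have hd : dd y < P.w p ∨ dd y = 0 := by
    rcases h with h | h
    · left; exact (dd_le_self y hy).trans_lt h
    · right; rw [h]; simp [dd]
  unfold Stair.u
  simp only
  have h1 : ∫ s in (-1:ℝ)..1, c.κ (p + dd y * s) = ∫ s in (-1:ℝ)..1, c.κ p := by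
    refine intervalIntegral.integral_congr ?_
    intro s hs
    rw [uIcc_of_le (by norm_num)] at hs
    simp only
    exact kap_const P c hc p (dd y) s (dd_nonneg y) hd (abs_le.2 hs)
  rw [h1, intervalIntegral.integral_const, smul_eq_mul]
  ring

include hc in
theorem D1_chan (p y : ℝ) (hy : 0 ≤ y) (h : y < P.w p ∨ y = 0) : c.D1 (p, y) = - c.β := by
  have hd : dd y < P.w p ∨ dd y = 0 := by
    rcases h with h | h
    · left; exact (dd_le_self y hy).trans_lt h
    · right; rw [h]; simp [dd]
  have h1 := kap_const P c hc p (dd y) 1 (dd_nonneg y) hd (by simp)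
  have h2 := kap_const P c hc p (dd y) (-1) (dd_nonneg y) hd (by simp)
  rw [mul_one] at h1
  rw [mul_neg, mul_one, ← sub_eq_add_neg] at h2
  unfold Stair.D1 Stair.G
  simp only [h1, h2]
  simp

include hc in
theorem D2_chan (p y : ℝ) (hy : 0 ≤ y) (h : y < P.w p ∨ y = 0) : c.D2 (p, y) = 0 := by
  have hd : dd y < P.w p ∨ dd y = 0 := by
    rcases h with h | h
    · left; exact (dd_le_self y hy).trans_lt h
    · right; rw [h]; simp [dd]
  have h1 := kap_const P c hc p (dd y) 1 (dd_nonneg y) hd (by simp)
  have h2 := kap_const P c hc p (dd y) (-1) (dd_nonneg y) hd (by simp)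
  rw [mul_one] at h1
  rw [mul_neg, mul_one, ← sub_eq_add_neg] at h2
  have h3 := c.abs_D2_le (p, y)
  have h4 : c.G (p, y) = 0 := by
    unfold Stair.G
    simp only [h1, h2]
    simp
  rw [h4] at h3
  simpa using h3

/-- velocity -/
noncomputable def vb (_t : ℝ) (x : Fin 2 → ℝ) : Fin 2 → ℝ :=
  if 0 < Int.fract (x 1) ∧ Int.fract (x 1) < P.w (x 0) then
    ![1 / P.w (x 0), deriv P.w (x 0) / (P.w (x 0)) ^ 2 * Int.fract (x 1)] else 0

/-- flow -/
noncomputable def fl (t : ℝ) (x : Fin 2 → ℝ) : Fin 2 → ℝ :=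
  ![(P.XX t (x 0, x 1)).1, (P.XX t (x 0, x 1)).2]

noncomputable def ff (_t : ℝ) (x : Fin 2 → ℝ) : Fin 2 → ℝ := fun _ => c.u (x 0, x 1)

noncomputable def DF (_t : ℝ) (x : Fin 2 → ℝ) (j : Fin 2) : Fin 2 → ℝ :=
  fun _ => if j = 0 then c.D1 (x 0, x 1) else c.D2 (x 0, x 1)

theorem w_int (x : ℝ) (k : ℤ) : P.w (x + k) = P.w x := by
  have hper : Function.Periodic P.w 1 := P.per
  have := hper.int_mul k x
  simpa using this

theorem dw_int (x : ℝ) (k : ℤ) : deriv P.w (x + k) = deriv P.w x := by
  rw [← deriv_comp_add_const]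
  congr 1
  funext y
  exact w_int P y k

theorem vb_per (t : ℝ) (x : Fin 2 → ℝ) (k : Fin 2 → ℤ) :
    vb P t (x + (fun i => (k i : ℝ))) = vb P t x := by
  unfold vb
  simp only [Pi.add_apply, Int.fract_add_intCast, w_int, dw_int]

theorem vb_meas : Measurable (Function.uncurry (vb P)) := by
  have h1 := P.cont.measurable
  have h2 := measurable_deriv P.w
  have m0 : Measurable (fun q : ℝ × (Fin 2 → ℝ) => q.2 0) := (measurable_pi_apply 0).comp measurable_snd
  have m1 : Measurable (fun q : ℝ × (Fin 2 → ℝ) => Int.fract (q.2 1)) :=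
    measurable_fract.comp ((measurable_pi_apply 1).comp measurable_snd)
  have mw : Measurable (fun q : ℝ × (Fin 2 → ℝ) => P.w (q.2 0)) := h1.comp m0
  have md : Measurable (fun q : ℝ × (Fin 2 → ℝ) => deriv P.w (q.2 0)) := h2.comp m0
  have hA : MeasurableSet {q : ℝ × (Fin 2 → ℝ) | 0 < Int.fract (q.2 1)} :=
    measurableSet_lt measurable_const m1
  have hB : MeasurableSet {q : ℝ × (Fin 2 → ℝ) | Int.fract (q.2 1) < P.w (q.2 0)} :=
    measurableSet_lt m1 mw
  unfold vb
  simp only [Function.uncurry_def]
  refine Measurable.ite (hA.inter hB) ?_ measurable_const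
  refine measurable_pi_iff.2 fun i => ?_
  fin_cases i
  · exact measurable_const.div mw
  · exact (md.div (mw.pow_const 2)).mul m1

theorem fl_meas : Measurable (Function.uncurry (fl P)) := by
  have h0 := P.measurable_XX
  have h1 : Measurable (fun q : ℝ × (Fin 2 → ℝ) => P.XX q.1 (q.2 0, q.2 1)) :=
    h0.comp (f := fun q : ℝ × (Fin 2 → ℝ) => (q.1, (q.2 0, q.2 1))) (by fun_prop)
  unfold fl
  simp only [Function.uncurry_def]
  refine measurable_pi_iff.2 fun i => ?_
  fin_cases i
  · exact h1.fst
  · exact h1.snd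

theorem ff_cont : Continuous (Function.uncurry (ff c)) := by
  unfold ff
  simp only [Function.uncurry_def]
  refine continuous_pi fun _ => ?_
  exact c.cont_u.comp (by fun_prop)

theorem ff_per (t : ℝ) (x : Fin 2 → ℝ) (k : Fin 2 → ℤ) :
    ff c t (x + (fun i => (k i : ℝ))) = ff c t x := by
  unfold ff
  simp only [Pi.add_apply]
  funext _
  rw [c.u_add_left, c.u_add_right]

theorem DF_meas : Measurable (Function.uncurry (DF c)) := by
  have h1 := c.measurable_D1
  have h2 := c.measurable_D2
  have h3 : Measurable (fun q : ℝ × (Fin 2 → ℝ) => (q.2 0, q.2 1)) := by fun_prop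
  unfold DF
  simp only [Function.uncurry_def]
  refine measurable_pi_iff.2 fun j => measurable_pi_iff.2 fun _ => ?_
  fin_cases j
  · have h4 : Measurable (fun q : ℝ × (Fin 2 → ℝ) => c.D1 (q.2 0, q.2 1)) := h1.comp h3
    simpa using h4
  · have h4 : Measurable (fun q : ℝ × (Fin 2 → ℝ) => c.D2 (q.2 0, q.2 1)) := h2.comp h3
    simpa using h4

end main

end Pool.Agent.Lib.B7ec12
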