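import Mathlib
import Pool.Agent.Lib.MP_b7ec12_an.Asm

set_option autoImplicit false
open MeasureTheory Set Filter Topology
open scoped ENNReal

namespace Pool.Agent.Lib.B7ec12

section main

variable (P : Profile) (c : Stair) (hc : ∀ p q, |q - p| < P.w p → c.κ q = c.κ p)

/-- unit square -/
abbrev QQ : Set (Fin 2 → ℝ) := Set.pi Set.univ fun _ : Fin 2 => Set.Ico (0:ℝ) 1

theorem fl_not (t : ℝ) (x : Fin 2 → ℝ) (h : ¬ (0 < x 1 ∧ x 1 < P.w (x 0))) : fl P t x = x := by
  unfold fl Profile.XX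
  rw [if_neg h]
  ext i
  fin_cases i <;> rfl

theorem fl_yes (t : ℝ) (x : Fin 2 → ℝ) (h : 0 < x 1 ∧ x 1 < P.w (x 0)) :
    fl P t x = ![P.p (x 0) t, x 1 / P.w (x 0) * P.w (P.p (x 0) t)] := by
  unfold fl Profile.XX
  rw [if_pos h]

theorem vb_not (t : ℝ) (x : Fin 2 → ℝ) (hx : x ∈ QQ) (h : ¬ (0 < x 1 ∧ x 1 < P.w (x 0))) :
    vb P t x = 0 := by
  unfold vb
  have : Int.fract (x 1) = x 1 := Int.fract_eq_self.2 (hx 1 (mem_univ _))
  rw [this, if_neg h]

theorem theta_lt (x : Fin 2 → ℝ) (h : 0 < x 1 ∧ x 1 < P.w (x 0)) :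
    0 < x 1 / P.w (x 0) ∧ x 1 / P.w (x 0) < 1 := by
  have h1 : 0 < P.w (x 0) := h.1.trans h.2
  exact ⟨div_pos h.1 h1, by rw [div_lt_one h1]; exact h.2⟩

theorem vb_val (t p y : ℝ) (h5 : 0 < y) (h6 : y < P.w p) :
    vb P t ![p, y] = ![1 / P.w p, deriv P.w p / (P.w p) ^ 2 * y] := by
  have h4 := P.le_half p
  have h7 : Int.fract y = y := Int.fract_eq_self.2 ⟨h5.le, by linarith⟩
  have h8 : 0 < Int.fract ((![p, y] : Fin 2 → ℝ) 1) ∧
      Int.fract ((![p, y] : Fin 2 → ℝ) 1) < P.w ((![p, y] : Fin 2 → ℝ) 0) := by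
    show 0 < Int.fract y ∧ Int.fract y < P.w p
    rw [h7]; exact ⟨h5, h6⟩
  unfold vb
  rw [if_pos h8]
  show ![1 / P.w p, deriv P.w p / (P.w p) ^ 2 * Int.fract y] = _
  rw [h7]

theorem vb_fl (t s : ℝ) (x : Fin 2 → ℝ) (h : 0 < x 1 ∧ x 1 < P.w (x 0)) (hw : P.w (P.p (x 0) s) ≠ 0) :
    vb P t (fl P s x) = ![1 / P.w (P.p (x 0) s),
      x 1 / P.w (x 0) * (deriv P.w (P.p (x 0) s) / P.w (P.p (x 0) s))] := by
  rw [fl_yes P s x h]
  obtain ⟨h1, h2⟩ := theta_lt P x h
  set θ := x 1 / P.w (x 0) with hθ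
  set p := P.p (x 0) s with hp
  have h3 : 0 < P.w p := lt_of_le_of_ne (P.nonneg p) hw.symm
  have h4 := P.le_half p
  have h5 : 0 < θ * P.w p := by positivity
  have h6 : θ * P.w p < P.w p := by nlinarith
  rw [vb_val P t p _ h5 h6]
  congr 2
  field_simp

theorem flow_ok (T : ℝ) : ∀ x ∈ QQ, fl P 0 x = x ∧
    IntegrableOn (fun t => vb P t (fl P t x)) (Set.Icc 0 T) ∧
    ∀ t ∈ Set.Icc (0:ℝ) T, fl P t x = x + ∫ s in (0:ℝ)..t, vb P s (fl P s x) := by
  intro x hx
  have h0 : fl P 0 x = x := by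
    unfold fl
    rw [P.XX_zero]
    ext i; fin_cases i <;> rfl
  refine ⟨h0, ?_⟩
  by_cases h : 0 < x 1 ∧ x 1 < P.w (x 0)
  · set g : ℝ → Fin 2 → ℝ := fun s => ![1 / P.w (P.p (x 0) s),
      x 1 / P.w (x 0) * (deriv P.w (P.p (x 0) s) / P.w (P.p (x 0) s))] with hg
    have hae : ∀ᵐ s, vb P s (fl P s x) = g s := by
      have := measure_eq_zero_iff_ae_notMem.1 (P.null_times (x 0))
      filter_upwards [this] with s hs
      exact vb_fl P s s x h hs
    have hgint : ∀ t, 0 ≤ t → IntegrableOn g (Icc 0 t) := by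
      intro t ht
      refine Integrable.of_eval fun i => ?_
      fin_cases i
      · exact P.integrableOn_inv (x 0) t ht
      · exact (P.integrableOn_deriv (x 0) t ht).const_mul _
    have hint : ∀ t, 0 ≤ t → IntegrableOn (fun t => vb P t (fl P t x)) (Icc 0 t) := by
      intro t ht
      exact (hgint t ht).congr_fun_ae (ae_restrict_of_ae (hae.mono fun s hs => hs.symm))
    constructor
    · rcases le_or_gt 0 T with hT | hT
      · exact hint T hT
      · rw [Icc_eq_empty (by linarith)]; simp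
    · intro t ht
      have h1 : ∫ s in (0:ℝ)..t, vb P s (fl P s x) = ∫ s in (0:ℝ)..t, g s :=
        intervalIntegral.integral_congr_ae (hae.mono fun s hs _ => hs)
      rw [h1, fl_yes P t x h]
      have hgi := hgint t ht.1
      have hev : ∀ i, (∫ s in (0:ℝ)..t, g s) i = ∫ s in (0:ℝ)..t, g s i := by
        intro i
        rw [intervalIntegral.integral_of_le ht.1, intervalIntegral.integral_of_le ht.1]
        exact eval_integral (fun i => ((hgi.mono_set Ioc_subset_Icc_self).eval i)) i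
      ext i
      rw [Pi.add_apply, hev]
      fin_cases i
      · show P.p (x 0) t = x 0 + ∫ s in (0:ℝ)..t, 1 / P.w (P.p (x 0) s)
        rw [P.integral_inv (x 0) t ht.1]; ring
      · show x 1 / P.w (x 0) * P.w (P.p (x 0) t) = x 1 + ∫ s in (0:ℝ)..t,
          x 1 / P.w (x 0) * (deriv P.w (P.p (x 0) s) / P.w (P.p (x 0) s))
        rw [intervalIntegral.integral_const_mul, P.integral_deriv (x 0) t ht.1]
        have : P.w (x 0) ≠ 0 := (h.1.trans h.2).ne'
        field_simp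
        ring
  · have h1 : ∀ t, fl P t x = x := fun t => fl_not P t x h
    have h2 : ∀ t, vb P t (fl P t x) = 0 := fun t => by rw [h1]; exact vb_not P t x hx h
    constructor
    · simp [h2]
    · intro t ht
      simp only [h2]
      rw [h1]; simp

theorem mp_ok (t : ℝ) :
    Measure.map (fun x i => Int.fract (fl P t x i)) (volume.restrict QQ) = volume.restrict QQ := by
  set E := (MeasurableEquiv.finTwoArrow (α := ℝ)) with hE
  have hmp : MeasurePreserving E volume volume := volume_preserving_finTwoArrow ℝ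
  have hQ : QQ = E ⁻¹' (Ico (0:ℝ) 1 ×ˢ Ico (0:ℝ) 1) := by
    ext x
    simp only [QQ, Set.mem_pi, mem_univ, true_imp_iff, Fin.forall_fin_two, mem_preimage, mem_prod]
    rfl
  have h1 : MeasurePreserving E (volume.restrict QQ) (volume.restrict (Ico (0:ℝ) 1 ×ˢ Ico (0:ℝ) 1)) := by
    rw [hQ]
    exact hmp.restrict_preimage (measurableSet_Ico.prod measurableSet_Ico)
  have h2 : MeasurePreserving (fun z => Profile.fr (P.XX t z)) (volume.restrict (Ico (0:ℝ) 1 ×ˢ Ico (0:ℝ) 1))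
      (volume.restrict (Ico (0:ℝ) 1 ×ˢ Ico (0:ℝ) 1)) :=
    ⟨Profile.measurable_fr.comp (P.measurable_XX' t), P.map_XX t⟩
  have h3 : MeasurePreserving E.symm (volume.restrict (Ico (0:ℝ) 1 ×ˢ Ico (0:ℝ) 1)) (volume.restrict QQ) :=
    h1.symm E
  have h4 := (h3.comp h2).comp h1
  have h5 : (fun (x : Fin 2 → ℝ) i => Int.fract (fl P t x i)) =
      (E.symm ∘ (fun z => Profile.fr (P.XX t z))) ∘ E := by
    funext x i
    fin_cases i <;> rfl
  rw [h5]
  exact h4.map_eq

theorem DF_int (T R : ℝ) : IntegrableOn (Function.uncurry (DF c))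
    (Set.Ioo (0:ℝ) T ×ˢ Metric.closedBall (0 : Fin 2 → ℝ) R) := by
  rcases lt_or_ge R 0 with hR | hR
  · rw [Metric.closedBall_eq_empty.2 hR]; simp
  have key : ∀ D : ℝ × ℝ → ℝ, IntegrableOn D (Icc (-R) R ×ˢ Icc (-R) R) →
      IntegrableOn (fun q : ℝ × (Fin 2 → ℝ) => D (q.2 0, q.2 1))
        (Set.Ioo (0:ℝ) T ×ˢ Metric.closedBall (0 : Fin 2 → ℝ) R) := by
    intro D hD
    have hmp : MeasurePreserving (MeasurableEquiv.finTwoArrow (α := ℝ)) volume volume :=
      volume_preserving_finTwoArrow ℝ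
    have h1 : IntegrableOn (fun x : Fin 2 → ℝ => D (x 0, x 1)) (Metric.closedBall (0 : Fin 2 → ℝ) R) := by
      have h2 : Metric.closedBall (0 : Fin 2 → ℝ) R =
          (MeasurableEquiv.finTwoArrow (α := ℝ)) ⁻¹' (Icc (-R) R ×ˢ Icc (-R) R) := by
        ext x
        rw [mem_closedBall_zero_iff, pi_norm_le_iff_of_nonneg hR, Fin.forall_fin_two,
          mem_preimage, mem_prod, Real.norm_eq_abs, Real.norm_eq_abs, abs_le, abs_le]
        rfl
      rw [h2]
      exact (hmp.integrableOn_comp_preimage (MeasurableEquiv.measurableEmbedding _)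
        (f := D) (s := Icc (-R) R ×ˢ Icc (-R) R)).2 hD
    unfold IntegrableOn at h1 ⊢
    rw [Measure.volume_eq_prod, ← Measure.prod_restrict]
    exact h1.comp_snd _
  refine Integrable.of_eval fun j => Integrable.of_eval fun _ => ?_
  fin_cases j
  · have := key c.D1 (c.integrableOn_D1 R hR)
    simpa [DF, Function.uncurry_def, IntegrableOn] using this
  · have := key c.D2 (c.integrableOn_D2 R hR)
    simpa [DF, Function.uncurry_def, IntegrableOn] using this

theorem const_smul_pi (s : ℝ) (r : ℝ) :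
    s • (fun _ : Fin 2 => r) = (s * r) • (fun _ : Fin 2 => (1:ℝ)) := by
  funext i
  simp

theorem weak_ok (φ : ℝ × (Fin 2 → ℝ) → ℝ) (hφ : ContDiff ℝ 1 φ) (hcs : HasCompactSupport φ) :
    ((∫ p, fderiv ℝ φ p ((1:ℝ), (0 : Fin 2 → ℝ)) • ff c p.1 p.2)
        = - ∫ p : ℝ × (Fin 2 → ℝ), φ p • (0 : Fin 2 → ℝ)) ∧
     ∀ j : Fin 2,
       (∫ p, fderiv ℝ φ p ((0:ℝ), (Pi.single j (1:ℝ) : Fin 2 → ℝ)) • ff c p.1 p.2)
         = - ∫ p, φ p • DF c p.1 p.2 j := by
  have e1 : ∀ v : ℝ × (Fin 2 → ℝ), (∫ p, fderiv ℝ φ p v • ff c p.1 p.2) =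
      (∫ q : ℝ × (ℝ × ℝ), fderiv ℝ φ (V q) v * c.u q.2) • (fun _ : Fin 2 => (1:ℝ)) := by
    intro v
    rw [integral_V, ← integral_smul_const]
    refine integral_congr_ae (Eventually.of_forall fun q => ?_)
    exact const_smul_pi _ _
  have e2 : (∫ p, φ p • DF c p.1 p.2 0) =
      (∫ q : ℝ × (ℝ × ℝ), φ (V q) * c.D1 q.2) • (fun _ : Fin 2 => (1:ℝ)) := by
    rw [integral_V, ← integral_smul_const]
    refine integral_congr_ae (Eventually.of_forall fun q => ?_)
    exact const_smul_pi _ _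
  have e3 : (∫ p, φ p • DF c p.1 p.2 1) =
      (∫ q : ℝ × (ℝ × ℝ), φ (V q) * c.D2 q.2) • (fun _ : Fin 2 => (1:ℝ)) := by
    rw [integral_V, ← integral_smul_const]
    refine integral_congr_ae (Eventually.of_forall fun q => ?_)
    exact const_smul_pi _ _
  constructor
  · rw [e1, weak0 φ hφ hcs c.u c.cont_u]; simp
  · intro j
    rw [e1]
    fin_cases j
    · simp only [Fin.zero_eta]
      rw [e2, weak1 φ hφ hcs c.u c.D1 c.cont_u _ countable_dd c.integrableOn_D1
        (fun a b hb => c.hasDerivAt_u1 a b hb), neg_smul]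
    · simp only [Fin.mk_one]
      rw [e3, weak2 φ hφ hcs c.u c.D2 c.cont_u _ countable_dd c.integrableOn_D2
        (fun a b hb => c.hasDerivAt_u2 a b hb), neg_smul]

include hc in
theorem g_ok (T : ℝ) : ∀ x ∈ QQ,
     IntegrableOn (fun t => (0 : Fin 2 → ℝ) + ∑ j : Fin 2, vb P t (fl P t x) j • DF c t (fl P t x) j)
       (Set.Ioo (0:ℝ) T) := by
  intro x hx
  rcases lt_or_ge T 0 with hT | hT
  · rw [Ioo_eq_empty (by linarith)]; simp
  by_cases h : 0 < x 1 ∧ x 1 < P.w (x 0)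
  · have h1 : IntegrableOn (fun s => (fun _ : Fin 2 => 1 / P.w (P.p (x 0) s) * (-c.β))) (Icc 0 T) := by
      refine Integrable.of_eval fun _ => ?_
      exact (P.integrableOn_inv (x 0) T hT).mul_const _
    refine (h1.mono_set Ioo_subset_Icc_self).congr_fun_ae ?_
    have := measure_eq_zero_iff_ae_notMem.1 (P.null_times (x 0))
    filter_upwards [ae_restrict_of_ae this] with s hs
    rw [vb_fl P s s x h hs, fl_yes P s x h]
    obtain ⟨h1, h2⟩ := theta_lt P x h
    have h3 : 0 < P.w (P.p (x 0) s) := lt_of_le_of_ne (P.nonneg _) (fun h => hs h.symm)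
    have h4 : 0 ≤ x 1 / P.w (x 0) * P.w (P.p (x 0) s) := by positivity
    have h5 : x 1 / P.w (x 0) * P.w (P.p (x 0) s) < P.w (P.p (x 0) s) := by nlinarith
    funext i
    simp only [DF, Fin.sum_univ_two, Matrix.cons_val_zero, Matrix.cons_val_one, Pi.add_apply,
      Pi.smul_apply, smul_eq_mul, if_true]
    rw [D1_chan P c hc _ _ h4 (Or.inl h5), D2_chan P c hc _ _ h4 (Or.inl h5)]
    simp
  · have h1 : ∀ t, fl P t x = x := fun t => fl_not P t x h
    have h2 : ∀ t, vb P t (fl P t x) = 0 := fun t => by rw [h1]; exact vb_not P t x hx h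
    simp [h2]

set_option maxHeartbeats 2000000 in
include hc in
theorem not_ac (x : Fin 2 → ℝ) (h : 0 < x 1 ∧ x 1 < P.w (x 0)) :
    ¬ ∃ k : ℝ → (Fin 2 → ℝ), IntegrableOn k (Set.Icc (0:ℝ) P.A) ∧
       ∀ t ∈ Set.Icc (0:ℝ) P.A, ff c t (fl P t x) = ff c 0 (fl P 0 x) + ∫ s in (0:ℝ)..t, k s := by
  rintro ⟨k, hk, hkt⟩
  obtain ⟨hθ1, hθ2⟩ := theta_lt P x h
  set θ := x 1 / P.w (x 0) with hθ
  have hA := P.A_pos
  have hval : ∀ t, ff c t (fl P t x) 0 = c.κ (P.p (x 0) t) - c.β * P.p (x 0) t := by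
    intro t
    rw [fl_yes P t x h]
    simp only [ff, Matrix.cons_val_zero, Matrix.cons_val_one]
    have h1 := P.nonneg (P.p (x 0) t)
    refine u_chan P c hc _ _ (by positivity) ?_
    rcases h1.eq_or_lt with h2 | h2
    · right; rw [← h2, mul_zero]
    · left; nlinarith
  set m : ℝ → ℝ := fun s => k s 0 + c.β * (1 / P.w (P.p (x 0) s)) with hm
  have hk0 : IntegrableOn (fun s => k s 0) (Icc 0 P.A) := hk.eval 0
  have hmi : IntegrableOn m (Icc 0 P.A) :=
    hk0.add ((P.integrableOn_inv (x 0) P.A hA.le).const_mul _)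
  have hmint : ∀ t ∈ Icc 0 P.A, ∫ s in (0:ℝ)..t, m s = c.κ (P.p (x 0) t) - c.κ (x 0) := by
    intro t ht
    have hsub : Icc 0 t ⊆ Icc 0 P.A := Icc_subset_Icc le_rfl ht.2
    have hki : IntervalIntegrable (fun s => k s 0) volume 0 t := by
      rw [intervalIntegrable_iff_integrableOn_Icc_of_le ht.1]; exact hk0.mono_set hsub
    have hwi : IntervalIntegrable (fun s => 1 / P.w (P.p (x 0) s)) volume 0 t := by
      rw [intervalIntegrable_iff_integrableOn_Icc_of_le ht.1]
      exact P.integrableOn_inv (x 0) t ht.1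
    rw [hm, intervalIntegral.integral_add hki (hwi.const_mul _),
      intervalIntegral.integral_const_mul, P.integral_inv (x 0) t ht.1]
    have h1 := congrFun (hkt t ht) 0
    rw [Pi.add_apply, hval t, hval 0, P.p_zero] at h1
    have h2 : (∫ s in (0:ℝ)..t, k s) 0 = ∫ s in (0:ℝ)..t, k s 0 := by
      rw [intervalIntegral.integral_of_le ht.1, intervalIntegral.integral_of_le ht.1]
      exact eval_integral (fun i => (((hk.mono_set hsub).mono_set Ioc_subset_Icc_self).eval i)) 0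
    rw [h2] at h1
    linarith
  have hmI : IntervalIntegrable m volume 0 P.A := by
    rw [intervalIntegrable_iff_integrableOn_Icc_of_le hA.le]; exact hmi
  have hder := hmI.ae_hasDerivAt_integral
  have hnull := measure_eq_zero_iff_ae_notMem.1 (P.null_times (x 0))
  have hm0 : ∀ᵐ t, t ∈ Ioo 0 P.A → m t = 0 := by
    filter_upwards [hder, hnull] with t ht hw htI
    have h1 := ht (by rw [uIcc_of_le hA.le]; exact Ioo_subset_Icc_self htI) 0 (left_mem_uIcc)
    have h2 : (fun y => ∫ s in (0:ℝ)..y, m s) =ᶠ[𝓝 t] fun _ => c.κ (P.p (x 0) t) - c.κ (x 0) := by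
      have hwpos : 0 < P.w (P.p (x 0) t) := lt_of_le_of_ne (P.nonneg _) (fun h => hw h.symm)
      have hpc : Continuous (fun s => P.p (x 0) s) :=
        P.cont_p.comp (by fun_prop : Continuous fun s : ℝ => (x 0, s))
      have h3 : ∀ᶠ s in 𝓝 t, |P.p (x 0) s - P.p (x 0) t| < P.w (P.p (x 0) t) := by
        have h4 : ContinuousAt (fun s => |P.p (x 0) s - P.p (x 0) t|) t :=
          ((hpc.sub continuous_const).abs).continuousAt
        have h5 : (fun s => |P.p (x 0) s - P.p (x 0) t|) t < P.w (P.p (x 0) t) := by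
          simpa using hwpos
        exact h4.eventually_lt continuousAt_const h5
      filter_upwards [h3, Ioo_mem_nhds htI.1 htI.2] with s hs hsI
      have h6 : c.κ (P.p (x 0) s) = c.κ (P.p (x 0) t) := hc (P.p (x 0) t) (P.p (x 0) s) hs
      have h7 := hmint s (Ioo_subset_Icc_self hsI)
      rw [h6] at h7
      exact h7
    have h3 := (hasDerivAt_const t (c.κ (P.p (x 0) t) - c.κ (x 0))).congr_of_eventuallyEq h2
    exact h1.unique h3
  have h1 : ∫ s in (0:ℝ)..P.A, m s = 0 := by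
    rw [intervalIntegral.integral_of_le hA.le, integral_Ioc_eq_integral_Ioo]
    rw [setIntegral_congr_ae (g := fun _ => (0:ℝ)) measurableSet_Ioo hm0]
    simp
  have h2 := hmint P.A (right_mem_Icc.2 hA.le)
  rw [h1, P.p_A, c.add] at h2
  have h3 := c.β_pos
  linarith

theorem exists_point (p : (Fin 2 → ℝ) → Prop) (hp : ∀ᵐ x ∂(volume.restrict QQ), p x) :
    ∃ x ∈ QQ, (0 < x 1 ∧ x 1 < P.w (x 0)) ∧ p x := by
  set U : Set (Fin 2 → ℝ) := {x | (0 < x 0 ∧ x 0 < 1) ∧ (0 < x 1 ∧ x 1 < P.w (x 0))} with hU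
  have hUo : IsOpen U := by
    have c0 : Continuous (fun x : Fin 2 → ℝ => x 0) := continuous_apply 0
    have c1 : Continuous (fun x : Fin 2 → ℝ => x 1) := continuous_apply 1
    exact ((isOpen_lt continuous_const c0).inter (isOpen_lt c0 continuous_const)).inter
      ((isOpen_lt continuous_const c1).inter (isOpen_lt c1 (P.cont.comp c0)))
  have hUn : U.Nonempty := by
    have h1 : ∀ᵐ y : ℝ ∂(volume.restrict (Ioo 0 1)), 0 < P.w y := ae_restrict_of_ae P.ae_pos
    have h2 : (volume.restrict (Ioo (0:ℝ) 1)) ≠ 0 := by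
      intro h
      have : (volume.restrict (Ioo (0:ℝ) 1)) univ = 0 := by rw [h]; simp
      simp at this
    have : NeZero (volume.restrict (Ioo (0:ℝ) 1)) := ⟨h2⟩
    obtain ⟨y, hy1, hy2⟩ := (h1.and (ae_restrict_mem measurableSet_Ioo)).exists
    refine ⟨![y, P.w y / 2], ?_⟩
    simp only [hU, mem_ofPred_eq, Matrix.cons_val_zero, Matrix.cons_val_one]
    exact ⟨hy2, by linarith, by linarith⟩
  have hUQ : U ⊆ QQ := by
    rintro x ⟨h1, h2⟩
    intro i _
    have h3 := P.le_half (x 0)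
    fin_cases i
    · exact ⟨h1.1.le, h1.2⟩
    · exact ⟨h2.1.le, by simp only [Fin.mk_one]; linarith⟩
  have hUpos := hUo.measure_pos volume hUn
  by_contra hcon
  push Not at hcon
  have hQm : MeasurableSet QQ := MeasurableSet.univ_pi fun _ => measurableSet_Ico
  rw [ae_restrict_iff' hQm, ae_iff] at hp
  have hsub : U ⊆ {a | ¬ (a ∈ QQ → p a)} := by
    intro a ha
    simp only [mem_ofPred_eq]
    intro h
    exact hcon a (hUQ ha) ha.2 (h (hUQ ha))
  have := measure_mono_null hsub hp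
  exact hUpos.ne' this

end main

end Pool.Agent.Lib.B7ec12
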